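import Mathlib

/-!
# The zero-one law for Maker-Breaker percolation games is false

The graph is the rooted tree in which every hub has eight children and is joined to each of them by
an arm, a path of 49 links; `(p, q) = (48, 6)`.

* Without head start Breaker wins from every root: Maker needs two turns to complete the first arm,
  and in the meantime Breaker leaves open only the 3 of the 8 branches with the fewest links of
  Maker.  Each completed arm costs Maker 49 links, one more than one turn, and the number of spare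
  links of Maker goes down 18, 6, 2, 0 while the number of open branches goes up 3, 4, 5, 6; then
  Breaker cuts the last six branches in one turn.
* With the 392 links at the root as a head start Maker has 64 open branches.  A branch without links
  of Maker has weight 7, a branch in which Maker owns exactly the first link has weight 8.  A turn
  of Maker raises the total weight by 48 and a turn of Breaker lowers it by at most 48.
-/

namespace Pool.Agent.Results.MP_aefbf4_co.NoZeroOneLaw

open Relation

/-! ### Percolation games on multigraphs -/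

/-- A multigraph with vertex type `V` and edge type `E`: `ends e` is the unordered pair of the
ends of the edge `e`; loops are excluded, parallel edges are allowed. -/
structure MGraph (V E : Type) where
  ends : E → Sym2 V
  loopless : ∀ e, ¬ (ends e).IsDiag

variable {V E : Type}

/-- `x` and `y` are joined by an edge that is not in `B`. -/
def MGraph.Adj (G : MGraph V E) (B : Finset E) (x y : V) : Prop :=
  ∃ e, e ∉ B ∧ G.ends e = s(x, y)

/-- The vertex set of the connected component of `v` in the graph of all edges not in `B`. -/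
def MGraph.comp (G : MGraph V E) (B : Finset E) (v : V) : Set V :=
  {u | ReflTransGen (G.Adj B) v u}

/-- The multigraph is connected. -/
def MGraph.Connected (G : MGraph V E) : Prop := ∀ x y, y ∈ G.comp ∅ x

/-- `P` is a legal turn: it consists of exactly `k` edges, none of them in `M` or in `B`
(the edges claimed by Maker and by Breaker so far). -/
def Legal (k : ℕ) (M B P : Finset E) : Prop := P.card = k ∧ Disjoint P M ∧ Disjoint P B

/-- The position `(Maker's edges, Breaker's edges)` after the turns of Maker listed in `l`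
(latest turn first) and the answers of Breaker playing the strategy `σ`; at the beginning Maker
owns `F` and Breaker owns nothing.  The strategy `σ` maps the list of all turns of Maker so far
(latest first) to the answer of Breaker. -/
def pos [DecidableEq E] (F : Finset E) (σ : List (Finset E) → Finset E) :
    List (Finset E) → Finset E × Finset E
  | [] => (F, ∅)
  | P :: l => ((pos F σ l).1 ∪ P, (pos F σ l).2 ∪ σ (P :: l))

/-- All turns of Maker in the list `l` (latest first) are legal. -/
def MakerLegal [DecidableEq E] (p : ℕ) (F : Finset E) (σ : List (Finset E) → Finset E) :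
    List (Finset E) → Prop
  | [] => True
  | P :: l => MakerLegal p F σ l ∧ Legal p (pos F σ l).1 (pos F σ l).2 P

/-- The strategy `σ` of Breaker always gives legal answers. -/
def BreakerLegal [DecidableEq E] (p q : ℕ) (F : Finset E)
    (σ : List (Finset E) → Finset E) : Prop :=
  ∀ P l, MakerLegal p F σ (P :: l) → Legal q ((pos F σ l).1 ∪ P) (pos F σ l).2 (σ (P :: l))

/-- The list of the first `n` turns of the sequence `m`, latest first. -/
def hist (m : ℕ → Finset E) : ℕ → List (Finset E)
  | 0 => []
  | n + 1 => m n :: hist m n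

/-- Breaker has a winning strategy in the `(p, q)`-percolation game on `(G, v)` with head start
`F`: a legal strategy such that against every legal infinite sequence of turns of Maker there is a
finite stage at which the component of `v` in the graph of all edges not claimed by Breaker is
finite. -/
def BreakerWins [DecidableEq E] (G : MGraph V E) (p q : ℕ) (v : V) (F : Finset E) : Prop :=
  ∃ σ : List (Finset E) → Finset E, BreakerLegal p q F σ ∧
    ∀ m : ℕ → Finset E, (∀ n, MakerLegal p F σ (hist m n)) →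
      ∃ n, (G.comp (pos F σ (hist m n)).2 v).Finite

/-! ### General facts about the game -/

theorem rtg_mono {α : Type} {r p : α → α → Prop} (h : ∀ a b, r a b → p a b) {x y : α}
    (hxy : ReflTransGen r x y) : ReflTransGen p x y := by
  induction hxy with
  | refl => exact ReflTransGen.refl
  | tail _ h' ih => exact ih.tail (h _ _ h')

theorem rtg_symm {α : Type} {r : α → α → Prop} (h : ∀ a b, r a b → r b a) {x y : α}
    (hxy : ReflTransGen r x y) : ReflTransGen r y x := by
  induction hxy with
  | refl => exact ReflTransGen.refl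
  | tail _ h' ih => exact ReflTransGen.head (h _ _ h') ih

theorem adj_symm {G : MGraph V E} {B : Finset E} {x y : V} (h : G.Adj B x y) : G.Adj B y x := by
  obtain ⟨e, he, h⟩ := h
  exact ⟨e, he, by rw [h, Sym2.eq_swap]⟩

theorem comp_mono {G : MGraph V E} {B B' : Finset E} (h : B ⊆ B') (v : V) :
    G.comp B' v ⊆ G.comp B v := by
  intro u hu
  refine rtg_mono ?_ hu
  rintro x y ⟨e, he, h'⟩
  exact ⟨e, fun h'' => he (h h''), h'⟩

theorem comp_closed {G : MGraph V E} {B : Finset E} {v : V} {N : Set V} (hv : v ∈ N)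
    (h : ∀ x y, x ∈ N → G.Adj B x y → y ∈ N) : G.comp B v ⊆ N := by
  intro u hu
  induction hu with
  | refl => exact hv
  | tail _ hxy ih => exact h _ _ ih hxy

variable [DecidableEq E]

theorem extend [Infinite E] (X Q₀ : Finset E) (k : ℕ) (hd : Disjoint Q₀ X) (hk : Q₀.card ≤ k) :
    ∃ Q : Finset E, Q₀ ⊆ Q ∧ Q.card = k ∧ Disjoint Q X := by
  induction k, hk using Nat.le_induction with
  | base => exact ⟨Q₀, subset_rfl, rfl, hd⟩
  | succ k _ ih =>
    obtain ⟨Q, h1, h2, h3⟩ := ih
    obtain ⟨e, he⟩ := Infinite.exists_notMem_finset (Q ∪ X)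
    rw [Finset.mem_union, not_or] at he
    refine ⟨insert e Q, h1.trans (Finset.subset_insert _ _), ?_, ?_⟩
    · rw [Finset.card_insert_of_notMem he.1, h2]
    · rw [Finset.disjoint_insert_left]
      exact ⟨he.2, h3⟩

theorem exists_legal [Infinite E] (k : ℕ) (M B : Finset E) : ∃ Q, Legal k M B Q := by
  obtain ⟨Q, _, h2, h3⟩ := extend (M ∪ B) ∅ k (by simp) (by simp)
  rw [Finset.disjoint_union_right] at h3
  exact ⟨Q, h2, h3.1, h3.2⟩

/-- Breaker can force the component of `v` to be finite within `n` rounds. -/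
def W (G : MGraph V E) (p q : ℕ) (v : V) : ℕ → Finset E → Finset E → Prop
  | 0, _, B => (G.comp B v).Finite
  | n + 1, M, B => ∀ P, Legal p M B P → ∃ Q, Legal q (M ∪ P) B Q ∧ W G p q v n (M ∪ P) (B ∪ Q)

theorem W_fin [Infinite E] (G : MGraph V E) (p q : ℕ) (v : V) (n : ℕ) (M B : Finset E)
    (h : (G.comp B v).Finite) : W G p q v n M B := by
  induction n generalizing M B with
  | zero => exact h
  | succ n ih =>
    intro P _
    obtain ⟨Q, hQ⟩ := exists_legal q (M ∪ P) B
    exact ⟨Q, hQ, ih _ _ (h.subset (comp_mono Finset.subset_union_left v))⟩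

open Classical in
/-- The answer of Breaker. -/
noncomputable def pick [Infinite E] (G : MGraph V E) (p q : ℕ) (v : V) (n : ℕ)
    (M B : Finset E) : Finset E :=
  if h : ∃ Q, Legal q M B Q ∧ W G p q v n M (B ∪ Q) then h.choose
  else (exists_legal q M B).choose

theorem pick_legal [Infinite E] (G : MGraph V E) (p q : ℕ) (v : V) (n : ℕ) (M B : Finset E) :
    Legal q M B (pick G p q v n M B) := by
  unfold pick
  split_ifs with h
  · exact h.choose_spec.1
  · exact (exists_legal q M B).choose_spec

theorem pick_W [Infinite E] (G : MGraph V E) (p q : ℕ) (v : V) (n : ℕ) (M B : Finset E)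
    (h : ∃ Q, Legal q M B Q ∧ W G p q v n M (B ∪ Q)) :
    W G p q v n M (B ∪ pick G p q v n M B) := by
  unfold pick
  rw [dif_pos h]
  exact h.choose_spec.2

/-- The number of rounds left and the position. -/
noncomputable def st [Infinite E] (G : MGraph V E) (p q : ℕ) (v : V) (N : ℕ) (F : Finset E) :
    List (Finset E) → ℕ × Finset E × Finset E
  | [] => (N, F, ∅)
  | P :: l =>
    ((st G p q v N F l).1 - 1, (st G p q v N F l).2.1 ∪ P,
      (st G p q v N F l).2.2 ∪ pick G p q v ((st G p q v N F l).1 - 1)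
        ((st G p q v N F l).2.1 ∪ P) (st G p q v N F l).2.2)

/-- The strategy of Breaker. -/
noncomputable def strat [Infinite E] (G : MGraph V E) (p q : ℕ) (v : V) (N : ℕ) (F : Finset E) :
    List (Finset E) → Finset E
  | [] => ∅
  | P :: l => pick G p q v ((st G p q v N F l).1 - 1)
        ((st G p q v N F l).2.1 ∪ P) (st G p q v N F l).2.2

theorem pos_strat [Infinite E] (G : MGraph V E) (p q : ℕ) (v : V) (N : ℕ) (F : Finset E)
    (l : List (Finset E)) :
    pos F (strat G p q v N F) l = (st G p q v N F l).2 := by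
  induction l with
  | nil => rfl
  | cons P l ih => rw [pos, ih]; rfl

theorem wins_of_W [Infinite E] (G : MGraph V E) (p q : ℕ) (v : V) (N : ℕ) (F : Finset E)
    (h : W G p q v N F ∅) : BreakerWins G p q v F := by
  have key : ∀ l, MakerLegal p F (strat G p q v N F) l →
      W G p q v (st G p q v N F l).1 (st G p q v N F l).2.1 (st G p q v N F l).2.2 := by
    intro l
    induction l with
    | nil => intro _; exact h
    | cons P l ih =>
      rintro ⟨h1, h2⟩
      have ih := ih h1
      rw [pos_strat] at h2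
      show W G p q v ((st G p q v N F l).1 - 1) ((st G p q v N F l).2.1 ∪ P)
        ((st G p q v N F l).2.2 ∪ pick G p q v ((st G p q v N F l).1 - 1)
          ((st G p q v N F l).2.1 ∪ P) (st G p q v N F l).2.2)
      rcases hk : (st G p q v N F l).1 with _ | k
      · rw [hk] at ih
        exact Set.Finite.subset ih (comp_mono Finset.subset_union_left v)
      · rw [hk] at ih
        exact pick_W _ _ _ _ _ _ _ (ih P h2)
  refine ⟨strat G p q v N F, ?_, ?_⟩
  · intro P l _
    rw [pos_strat]
    exact pick_legal _ _ _ _ _ _ _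
  · intro m hm
    have hn : ∀ n, (st G p q v N F (hist m n)).1 = N - n := by
      intro n
      induction n with
      | zero => rfl
      | succ n ih =>
        show (st G p q v N F (hist m n)).1 - 1 = N - (n + 1)
        rw [ih]; omega
    refine ⟨N, ?_⟩
    have := key _ (hm N)
    rw [hn, Nat.sub_self] at this
    rw [pos_strat]
    exact this

theorem not_wins (G : MGraph V E) (p q : ℕ) (v : V) (F : Finset E)
    (Inv : Finset E → Finset E → Prop) (h0 : Inv F ∅)
    (hstep : ∀ M B, Inv M B → ∃ P, Legal p M B P ∧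
      ∀ Q, Legal q (M ∪ P) B Q → Inv (M ∪ P) (B ∪ Q))
    (hinf : ∀ M B, Inv M B → ¬ (G.comp B v).Finite) : ¬ BreakerWins G p q v F := by
  rintro ⟨σ, hσ, hw⟩
  have next : ∀ x : {l : List (Finset E) // MakerLegal p F σ l ∧
      Inv (pos F σ l).1 (pos F σ l).2}, ∃ P, MakerLegal p F σ (P :: x.1) ∧
      Inv (pos F σ (P :: x.1)).1 (pos F σ (P :: x.1)).2 := by
    rintro ⟨l, h1, h2⟩
    obtain ⟨P, hP, hQ⟩ := hstep _ _ h2
    exact ⟨P, ⟨h1, hP⟩, hQ _ (hσ P l ⟨h1, hP⟩)⟩
  choose f hf using next
  let x : ℕ → {l : List (Finset E) // MakerLegal p F σ l ∧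
      Inv (pos F σ l).1 (pos F σ l).2} := fun n =>
    Nat.rec ⟨[], trivial, h0⟩ (fun _ y => ⟨f y :: y.1, hf y⟩) n
  have hx : ∀ n, hist (fun n => f (x n)) n = (x n).1 := by
    intro n
    induction n with
    | zero => rfl
    | succ n ih =>
      show f (x n) :: hist (fun n => f (x n)) n = f (x n) :: (x n).1
      rw [ih]
  obtain ⟨n, hn⟩ := hw (fun n => f (x n)) (fun n => by rw [hx]; exact (x n).2.1)
  rw [hx] at hn
  exact hinf _ _ (x n).2.2 hn


/-! ### The tree -/

/-- The hubs: the vertices of the rooted tree in which every vertex has eight children; the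
children of the hub `w` are the hubs `i :: w`. -/
abbrev A := List (Fin 8)

/-- The arms: `(w, i)` is the path of 49 links from the hub `w` to its child `i :: w`. -/
abbrev Arm := A × Fin 8

/-- The links: `(a, j)` is the `j`-th link of the arm `a`. -/
abbrev Ed := Arm × Fin 49

/-- The vertices: the hubs, and 48 inner vertices on every arm. -/
abbrev Vx := A ⊕ (Arm × Fin 48)

/-- The lower end of an arm. -/
def child (a : Arm) : A := a.2 :: a.1

/-- The `m`-th vertex of the arm `a`, for `m = 0, …, 49`. -/
def node (a : Arm) (m : ℕ) : Vx :=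
  if m = 0 then Sum.inl a.1
  else if h : m - 1 < 48 then Sum.inr (a, ⟨m - 1, h⟩) else Sum.inl (child a)

theorem node_zero (a : Arm) : node a 0 = Sum.inl a.1 := rfl

theorem node_last (a : Arm) : node a 49 = Sum.inl (child a) := rfl

theorem node_inner (a : Arm) (m : Fin 48) : node a (m.1 + 1) = Sum.inr (a, m) := by
  unfold node
  rw [if_neg (by omega), dif_pos (by have := m.2; omega)]
  rfl

theorem node_inner' (a : Arm) (k : ℕ) (h0 : k ≠ 0) (h : k < 49) :
    node a k = Sum.inr (a, ⟨k - 1, by omega⟩) := by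
  unfold node
  rw [if_neg h0, dif_pos (by omega)]

theorem node_ne (a : Arm) (j : Fin 49) : node a j.1 ≠ node a (j.1 + 1) := by
  have hj := j.2
  rcases Nat.eq_zero_or_pos j.1 with h | h
  · rw [h, node_zero, zero_add, node_inner' a 1 (by omega) (by omega)]
    simp
  · rw [node_inner' a j.1 (by omega) (by omega)]
    rcases Nat.lt_or_ge (j.1 + 1) 49 with h' | h'
    · rw [node_inner' a (j.1 + 1) (by omega) h']
      simp
      omega
    · have : j.1 + 1 = 49 := by omega
      rw [this, node_last]
      simp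

/-- The tree `T`. -/
def T : MGraph Vx Ed where
  ends e := s(node e.1 e.2.1, node e.1 (e.2.1 + 1))
  loopless e := by
    rw [Sym2.mk_isDiag_iff]
    exact node_ne e.1 e.2

/-- Joined by a path of links in `M`. -/
def MConn (M : Finset Ed) (x y : Vx) : Prop :=
  ReflTransGen (fun x y => ∃ e ∈ M, T.ends e = s(x, y)) x y

theorem MConn.mono {M M' : Finset Ed} (h : M ⊆ M') {x y : Vx} (hxy : MConn M x y) :
    MConn M' x y := by
  refine rtg_mono ?_ hxy
  rintro a b ⟨e, he, h'⟩
  exact ⟨e, h he, h'⟩

theorem MConn.comp {M B : Finset Ed} (h : Disjoint M B) {x y : Vx} (hxy : MConn M x y) :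
    y ∈ T.comp B x := by
  refine rtg_mono ?_ hxy
  rintro a b ⟨e, he, h'⟩
  exact ⟨e, Finset.disjoint_left.1 h he, h'⟩

theorem MConn.symm {M : Finset Ed} {x y : Vx} (hxy : MConn M x y) : MConn M y x := by
  refine rtg_symm ?_ hxy
  rintro a b ⟨e, he, h'⟩
  exact ⟨e, he, by rw [h', Sym2.eq_swap]⟩

theorem path {R : Vx → Vx → Prop} (a : Arm) (i j : ℕ) (hij : i ≤ j)
    (h : ∀ k, i ≤ k → k < j → R (node a k) (node a (k + 1))) :
    ReflTransGen R (node a i) (node a j) := by
  induction j, hij using Nat.le_induction with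
  | base => exact ReflTransGen.refl
  | succ j hj ih => exact (ih (fun k h1 h2 => h k h1 (by omega))).tail (h j hj (by omega))

theorem path_M {M : Finset Ed} (a : Arm) (i j : ℕ) (hij : i ≤ j) (hj : j ≤ 49)
    (h : ∀ k : Fin 49, i ≤ k.1 → k.1 < j → (a, k) ∈ M) : MConn M (node a i) (node a j) :=
  path a i j hij (fun k h1 h2 => ⟨(a, ⟨k, by omega⟩), h _ h1 h2, rfl⟩)

theorem arm_M {M : Finset Ed} (a : Arm) (h : ∀ k : Fin 49, (a, k) ∈ M) :
    MConn M (Sum.inl a.1) (Sum.inl (child a)) :=
  path_M a 0 49 (by omega) le_rfl (fun k _ _ => h k)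

theorem arm_B {B : Finset Ed} (a : Arm) (h : ∀ k : Fin 49, (a, k) ∉ B) :
    ReflTransGen (T.Adj B) (Sum.inl a.1) (Sum.inl (child a)) :=
  path a 0 49 (by omega) (fun k h1 h2 => ⟨(a, ⟨k, by omega⟩), h _, rfl⟩)

theorem T_connected : T.Connected := by
  have key : ∀ w : A, ReflTransGen (T.Adj ∅) (Sum.inl []) (Sum.inl w) := by
    intro w
    induction w with
    | nil => exact ReflTransGen.refl
    | cons i w ih => exact ih.trans (arm_B (w, i) (fun k => by simp))
  have key2 : ∀ x : Vx, ReflTransGen (T.Adj ∅) (Sum.inl []) x := by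
    rintro (w | ⟨a, m⟩)
    · exact key w
    · refine (key a.1).trans ?_
      rw [← node_inner, ← node_zero]
      have := m.2
      exact path a 0 (m.1 + 1) (by omega) (fun k h1 h2 => ⟨(a, ⟨k, by omega⟩), by simp, rfl⟩)
  intro x y
  exact (rtg_symm (fun _ _ => adj_symm) (key2 x)).trans (key2 y)

theorem adj_cases {B : Finset Ed} {x y : Vx} (h : T.Adj B x y) :
    ∃ (a : Arm) (j : Fin 49), (a, j) ∉ B ∧
      ((x = node a j.1 ∧ y = node a (j.1 + 1)) ∨ (y = node a j.1 ∧ x = node a (j.1 + 1))) := by
  obtain ⟨⟨a, j⟩, h1, h2⟩ := h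
  refine ⟨a, j, h1, ?_⟩
  have h2 : s(node a j.1, node a (j.1 + 1)) = s(x, y) := h2
  rw [Sym2.eq_iff] at h2
  rcases h2 with ⟨h, h'⟩ | ⟨h, h'⟩
  · exact Or.inl ⟨h.symm, h'.symm⟩
  · exact Or.inr ⟨h.symm, h'.symm⟩

theorem child_inj {a b : Arm} (h : child a = child b) : a = b := by
  obtain ⟨w, i⟩ := a
  obtain ⟨w', i'⟩ := b
  simp only [child, List.cons.injEq] at h
  rw [h.1, h.2]

/-! ### Cutting off a finite part -/

/-- There is no link of Breaker between the upper end of `a`, which lies in `C`, and the
`k`-th vertex. -/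
def Up (C : Finset A) (B : Finset Ed) (a : Arm) (k : ℕ) : Prop :=
  a.1 ∈ C ∧ ∀ j : Fin 49, j.1 < k → (a, j) ∉ B

/-- There is no link of Breaker between the lower end of `a`, which lies in `C`, and the
`k`-th vertex. -/
def Down (C : Finset A) (B : Finset Ed) (a : Arm) (k : ℕ) : Prop :=
  child a ∈ C ∧ ∀ j : Fin 49, k ≤ j.1 → (a, j) ∉ B

def Near (C : Finset A) (B : Finset Ed) : Vx → Prop
  | Sum.inl w => w ∈ C
  | Sum.inr (a, m) => Up C B a (m.1 + 1) ∨ Down C B a (m.1 + 1)

theorem near_node {C : Finset A} {B : Finset Ed}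
    (hcut : ∀ a : Arm, (∀ j : Fin 49, (a, j) ∉ B) → (a.1 ∈ C ↔ child a ∈ C)) (a : Arm) (k : ℕ)
    (hk : k ≤ 49) : Near C B (node a k) ↔ (Up C B a k ∨ Down C B a k) := by
  rcases Nat.eq_zero_or_pos k with h | h
  · subst h
    rw [node_zero]
    show a.1 ∈ C ↔ _
    constructor
    · intro h
      exact Or.inl ⟨h, fun j hj => absurd hj (by omega)⟩
    · rintro (h | h)
      · exact h.1
      · exact (hcut a (fun j => h.2 j (by omega))).2 h.1
  · rcases Nat.lt_or_ge k 49 with h' | h'
    · rw [node_inner' a k (by omega) h']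
      show (Up C B a (k - 1 + 1) ∨ Down C B a (k - 1 + 1)) ↔ _
      rw [show k - 1 + 1 = k by omega]
    · have : k = 49 := by omega
      subst this
      rw [node_last]
      show child a ∈ C ↔ _
      constructor
      · intro h
        exact Or.inr ⟨h, fun j hj => absurd hj (by have := j.2; omega)⟩
      · rintro (h | h)
        · exact (hcut a (fun j => h.2 j j.2)).1 h.1
        · exact h.1

theorem near_step {C : Finset A} {B : Finset Ed} (a : Arm) (j : Fin 49) (hj : (a, j) ∉ B) :
    (Up C B a j.1 ∨ Down C B a j.1) ↔ (Up C B a (j.1 + 1) ∨ Down C B a (j.1 + 1)) := by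
  have h1 : Up C B a j.1 ↔ Up C B a (j.1 + 1) := by
    constructor
    · rintro ⟨h, h'⟩
      refine ⟨h, fun i hi => ?_⟩
      rcases Nat.lt_or_ge i.1 j.1 with h'' | h''
      · exact h' i h''
      · have : i = j := Fin.ext (by omega)
        rw [this]; exact hj
    · rintro ⟨h, h'⟩
      exact ⟨h, fun i hi => h' i (by omega)⟩
  have h2 : Down C B a j.1 ↔ Down C B a (j.1 + 1) := by
    constructor
    · rintro ⟨h, h'⟩
      exact ⟨h, fun i hi => h' i (by omega)⟩
    · rintro ⟨h, h'⟩
      refine ⟨h, fun i hi => ?_⟩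
      rcases Nat.lt_or_ge j.1 i.1 with h'' | h''
      · exact h' i h''
      · have : i = j := Fin.ext (by omega)
        rw [this]; exact hj
  rw [h1, h2]

theorem near_finite (C : Finset A) (B : Finset Ed) : {x | Near C B x}.Finite := by
  have h1 : {a : Arm | a.1 ∈ C}.Finite := by
    refine ((C ×ˢ (Finset.univ : Finset (Fin 8))).finite_toSet).subset ?_
    intro a ha
    simpa using ha
  have h2 : {a : Arm | child a ∈ C}.Finite :=
    Set.Finite.preimage (fun a _ b _ h => child_inj h) C.finite_toSet
  refine ((C.finite_toSet.image (Sum.inl : A → Vx)).union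
    (((h1.union h2).prod (Set.finite_univ : (Set.univ : Set (Fin 48)).Finite)).image
    (Sum.inr : Arm × Fin 48 → Vx))).subset ?_
  rintro (w | ⟨a, m⟩) hx
  · exact Or.inl ⟨w, hx, rfl⟩
  · refine Or.inr ⟨(a, m), ⟨?_, trivial⟩, rfl⟩
    rcases hx with h | h
    · exact Or.inl h.1
    · exact Or.inr h.1

theorem isolate {C : Finset A} {B : Finset Ed}
    (hcut : ∀ a : Arm, (∀ j : Fin 49, (a, j) ∉ B) → (a.1 ∈ C ↔ child a ∈ C)) {h : A}
    (hh : h ∈ C) {v : Vx} (hv : v ∈ T.comp B (Sum.inl h)) : (T.comp B v).Finite := by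
  have hclosed : ∀ x y, x ∈ {x | Near C B x} → T.Adj B x y → y ∈ {x | Near C B x} := by
    intro x y hx hxy
    obtain ⟨a, j, h1, h2⟩ := adj_cases hxy
    have hj := j.2
    rcases h2 with ⟨h2, h3⟩ | ⟨h2, h3⟩
    · rw [h2] at hx
      rw [h3]
      exact (near_node hcut a _ (by omega)).2
        ((near_step a j h1).1 ((near_node hcut a _ (by omega)).1 hx))
    · rw [h3] at hx
      rw [h2]
      exact (near_node hcut a _ (by omega)).2
        ((near_step a j h1).2 ((near_node hcut a _ (by omega)).1 hx))
  have h0 : (Sum.inl h : Vx) ∈ {x | Near C B x} := hh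
  have hvN := comp_closed h0 hclosed hv
  exact (near_finite C B).subset (comp_closed hvN hclosed)

/-- If the root is an inner vertex of an arm and Breaker owns a link of this arm on both sides of
the root, then the component of the root is finite. -/
theorem isolate_inner {B : Finset Ed} (a : Arm) (m : Fin 48) (i j : Fin 49) (hi : i.1 ≤ m.1)
    (hj : m.1 < j.1) (hiB : (a, i) ∈ B) (hjB : (a, j) ∈ B) :
    (T.comp B (Sum.inr (a, m))).Finite := by
  have hN : ({x | ∃ k, i.1 < k ∧ k ≤ j.1 ∧ x = node a k} : Set Vx).Finite := by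
    refine ((Set.finite_Iic j.1).image (fun k => node a k)).subset ?_
    rintro x ⟨k, _, h2, rfl⟩
    exact ⟨k, h2, rfl⟩
  refine hN.subset (comp_closed ⟨m.1 + 1, by omega, by omega, (node_inner a m).symm⟩ ?_)
  rintro x y ⟨k, h1, h2, rfl⟩ hxy
  have hj' := j.2
  obtain ⟨b, l, h3, h4⟩ := adj_cases hxy
  have hl := l.2
  have hk : ∀ n : ℕ, n ≤ 49 → node a k = node b n → b = a ∧ n = k := by
    intro n hn h
    rw [node_inner' a k (by omega) (by omega)] at h
    rcases Nat.eq_zero_or_pos n with h' | h'
    · subst h'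
      rw [node_zero] at h
      exact absurd h (by simp)
    · rcases Nat.lt_or_ge n 49 with h'' | h''
      · rw [node_inner' b n (by omega) h''] at h
        simp only [Sum.inr.injEq, Prod.mk.injEq, Fin.mk.injEq] at h
        exact ⟨h.1.symm, by omega⟩
      · have : n = 49 := by omega
        subst this
        rw [node_last] at h
        exact absurd h (by simp)
  rcases h4 with ⟨h4, h5⟩ | ⟨h4, h5⟩
  · obtain ⟨rfl, h6⟩ := hk _ (by omega) h4
    refine ⟨l.1 + 1, by omega, ?_, h5⟩
    have : l ≠ j := by rintro rfl; exact h3 hjB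
    have : l.1 ≠ j.1 := fun h => this (Fin.ext h)
    omega
  · obtain ⟨rfl, h6⟩ := hk _ (by omega) h5
    refine ⟨l.1, ?_, by omega, h4⟩
    have : l ≠ i := by rintro rfl; exact h3 hiB
    have : l.1 ≠ i.1 := fun h => this (Fin.ext h)
    omega

/-! ### Branches -/

/-- No branch of an arm in `H` contains another arm of `H`. -/
def Anti (H : Finset Arm) : Prop := ∀ a ∈ H, ∀ b ∈ H, child a <:+ child b → a = b

theorem Anti.unique {H : Finset Arm} (hH : Anti H) {a b : Arm} (ha : a ∈ H) (hb : b ∈ H) {w : A}
    (h1 : child a <:+ w) (h2 : child b <:+ w) : a = b := by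
  rcases List.suffix_or_suffix_of_suffix h1 h2 with h | h
  · exact hH a ha b hb h
  · exact (hH b hb a ha h).symm

theorem Anti.subset {H H' : Finset Arm} (hH : Anti H) (h : H' ⊆ H) : Anti H' :=
  fun a ha b hb hab => hH a (h ha) b (h hb) hab

/-- The eight arms below the hub `w`. -/
def kids (w : A) : Finset Arm := Finset.univ.image (fun i => (w, i))

theorem mem_kids {w : A} {b : Arm} : b ∈ kids w ↔ b.1 = w := by
  unfold kids
  simp only [Finset.mem_image, Finset.mem_univ, true_and]
  constructor
  · rintro ⟨i, rfl⟩; rfl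
  · rintro rfl; exact ⟨b.2, rfl⟩

theorem card_kids (w : A) : (kids w).card = 8 := by
  unfold kids
  rw [Finset.card_image_of_injective _ (fun i j h => by simpa using h)]
  simp

theorem length_child (a : Arm) : (child a).length = a.1.length + 1 := by
  simp [child]

theorem suffix_child (a : Arm) : a.1 <:+ child a := List.suffix_cons a.2 a.1

theorem not_kid_suffix {a b : Arm} (hb : b.1 = child a) : ¬ child b <:+ child a := by
  intro h
  have h1 := h.length_le
  rw [length_child b, hb] at h1
  omega

theorem anti_kids (w : A) : Anti (kids w) := by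
  intro a ha b hb h
  rw [mem_kids] at ha hb
  refine child_inj (h.eq_of_length ?_)
  rw [length_child, length_child, ha, hb]

theorem kid_suffix {a b : Arm} (hb : b.1 = child a) : child a <:+ child b := by
  rw [← hb]; exact suffix_child b

/-- Replacing an arm by the eight arms below it. -/
def repl (H : Finset Arm) (a : Arm) : Finset Arm := H.erase a ∪ kids (child a)

theorem repl_disjoint {H : Finset Arm} (hH : Anti H) {a : Arm} (ha : a ∈ H) :
    Disjoint (H.erase a) (kids (child a)) := by
  rw [Finset.disjoint_left]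
  intro b hb hb'
  rw [mem_kids] at hb'
  rw [Finset.mem_erase] at hb
  exact hb.1 (hH a ha b hb.2 (kid_suffix hb')).symm

theorem repl_card {H : Finset Arm} (hH : Anti H) {a : Arm} (ha : a ∈ H) :
    (repl H a).card = H.card + 7 := by
  unfold repl
  rw [Finset.card_union_of_disjoint (repl_disjoint hH ha), Finset.card_erase_of_mem ha, card_kids]
  have := Finset.card_pos.2 ⟨a, ha⟩
  omega

theorem repl_anti {H : Finset Arm} (hH : Anti H) {a : Arm} (ha : a ∈ H) : Anti (repl H a) := by
  intro b hb c hc hbc
  unfold repl at hb hc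
  rw [Finset.mem_union, mem_kids, Finset.mem_erase] at hb hc
  rcases hb with ⟨hb1, hb⟩ | hb <;> rcases hc with ⟨hc1, hc⟩ | hc
  · exact hH b hb c hc hbc
  · -- `b` old, `c` a kid
    exfalso
    rcases List.suffix_or_suffix_of_suffix hbc (kid_suffix hc) with h | h
    · exact hb1 (hH b hb a ha h)
    · exact hb1 (hH a ha b hb h).symm
  · exfalso
    exact hc1 (hH a ha c hc ((kid_suffix hb).trans hbc)).symm
  · exact anti_kids (child a) b (mem_kids.2 hb) c (mem_kids.2 hc) hbc

/-! ### Maker wins with a head start -/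

def wt (M : Finset Ed) (a : Arm) : ℕ := if (a, 0) ∈ M then 8 else 7

theorem wt_ge (M : Finset Ed) (a : Arm) : 7 ≤ wt M a := by
  unfold wt; split_ifs <;> omega

theorem wt_le (M : Finset Ed) (a : Arm) : wt M a ≤ 8 := by
  unfold wt; split_ifs <;> omega

theorem wt_mono {M M' : Finset Ed} (h : M ⊆ M') (a : Arm) : wt M a ≤ wt M' a := by
  unfold wt
  split_ifs with h1 h2 h2
  · exact le_rfl
  · exact absurd (h h1) h2
  · omega
  · exact le_rfl

structure J (M B : Finset Ed) (H : Finset Arm) : Prop where
  conn : ∀ a ∈ H, MConn M (Sum.inl []) (Sum.inl a.1)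
  anti : Anti H
  free : ∀ a ∈ H, ∀ e : Ed, child a <:+ child e.1 → e ∉ B ∧ (e ∈ M → e = (a, 0))
  disj : Disjoint M B

theorem maker_step {M B : Finset Ed} {H : Finset Arm} (hJ : J M B H)
    (hs : 336 ≤ ∑ a ∈ H, wt M a) : ∃ P, Legal 48 M B P ∧
      ∃ H', J (M ∪ P) B H' ∧ 384 ≤ ∑ a ∈ H', wt (M ∪ P) a := by
  by_cases hot : ∃ a ∈ H, (a, (0 : Fin 49)) ∈ M
  · obtain ⟨a, ha, ha0⟩ := hot
    set P : Finset Ed := ((Finset.univ : Finset (Fin 49)).erase 0).image (fun j => (a, j)) with hPdef
    have hP : ∀ e ∈ P, e.1 = a ∧ e.2 ≠ 0 := by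
      intro e he
      rw [hPdef, Finset.mem_image] at he
      obtain ⟨j, hj, rfl⟩ := he
      exact ⟨rfl, (Finset.mem_erase.1 hj).1⟩
    have hPM : Disjoint P M := by
      rw [Finset.disjoint_left]
      intro e he heM
      obtain ⟨h1, h2⟩ := hP e he
      have := (hJ.free a ha e (by rw [h1])).2 heM
      exact h2 (by rw [this])
    have hPB : Disjoint P B := by
      rw [Finset.disjoint_left]
      intro e he
      obtain ⟨h1, h2⟩ := hP e he
      exact (hJ.free a ha e (by rw [h1])).1
    have hcard : P.card = 48 := by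
      rw [hPdef, Finset.card_image_of_injective _ (fun i j h => by simpa using h)]
      simp
    have hall : ∀ k : Fin 49, (a, k) ∈ M ∪ P := by
      intro k
      rw [Finset.mem_union]
      by_cases hk : k = 0
      · rw [hk]; exact Or.inl ha0
      · right
        rw [hPdef, Finset.mem_image]
        exact ⟨k, by simp [hk], rfl⟩
    refine ⟨P, ⟨hcard, hPM, hPB⟩, repl H a, ⟨?_, repl_anti hJ.anti ha, ?_, ?_⟩, ?_⟩
    · intro b hb
      unfold repl at hb
      rw [Finset.mem_union, mem_kids, Finset.mem_erase] at hb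
      rcases hb with ⟨_, hb⟩ | hb
      · exact (hJ.conn b hb).mono Finset.subset_union_left
      · rw [hb]
        exact ((hJ.conn a ha).mono Finset.subset_union_left).trans (arm_M a hall)
    · intro b hb e hbe
      unfold repl at hb
      rw [Finset.mem_union, mem_kids, Finset.mem_erase] at hb
      rcases hb with ⟨hb1, hb⟩ | hb
      · refine ⟨(hJ.free b hb e hbe).1, fun he => ?_⟩
        rcases Finset.mem_union.1 he with he | he
        · exact (hJ.free b hb e hbe).2 he
        · exfalso
          rw [(hP e he).1] at hbe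
          exact hb1 (hJ.anti b hb a ha hbe)
      · have hae := (kid_suffix hb).trans hbe
        refine ⟨(hJ.free a ha e hae).1, fun he => ?_⟩
        exfalso
        have : e.1 = a := by
          rcases Finset.mem_union.1 he with he | he
          · rw [(hJ.free a ha e hae).2 he]
          · exact (hP e he).1
        rw [this] at hbe
        exact not_kid_suffix hb hbe
    · rw [Finset.disjoint_union_left]
      exact ⟨hJ.disj, hPB⟩
    · unfold repl
      rw [Finset.sum_union (repl_disjoint hJ.anti ha)]
      have h1 : ∑ b ∈ H.erase a, wt M b ≤ ∑ b ∈ H.erase a, wt (M ∪ P) b :=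
        Finset.sum_le_sum (fun b _ => wt_mono Finset.subset_union_left b)
      have h2 : (kids (child a)).card • 7 ≤ ∑ b ∈ kids (child a), wt (M ∪ P) b :=
        Finset.card_nsmul_le_sum _ _ _ (fun b _ => wt_ge _ b)
      rw [card_kids] at h2
      have h3 := Finset.add_sum_erase H (wt M) ha
      have h4 := wt_le M a
      simp only [smul_eq_mul] at h2
      omega
  · have hcold : ∀ a ∈ H, wt M a = 7 := by
      intro a ha
      unfold wt
      rw [if_neg (fun h => hot ⟨a, ha, h⟩)]
    have hHc : 48 ≤ H.card := by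
      rw [Finset.sum_congr rfl hcold, Finset.sum_const, smul_eq_mul] at hs
      omega
    obtain ⟨S, hS, hSc⟩ := Finset.exists_subset_card_eq hHc
    set P : Finset Ed := S.image (fun a => (a, (0 : Fin 49))) with hPdef
    have hP : ∀ e ∈ P, e.1 ∈ S ∧ e = (e.1, 0) := by
      intro e he
      rw [hPdef, Finset.mem_image] at he
      obtain ⟨j, hj, rfl⟩ := he
      exact ⟨hj, rfl⟩
    have hPM : Disjoint P M := by
      rw [Finset.disjoint_left]
      intro e he heM
      obtain ⟨h1, h2⟩ := hP e he
      rw [h2] at heM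
      exact hot ⟨_, hS h1, heM⟩
    have hPB : Disjoint P B := by
      rw [Finset.disjoint_left]
      intro e he
      obtain ⟨h1, h2⟩ := hP e he
      exact (hJ.free e.1 (hS h1) e (List.suffix_refl _)).1
    have hcard : P.card = 48 := by
      rw [hPdef, Finset.card_image_of_injective _ (fun i j h => by simpa using h), hSc]
    refine ⟨P, ⟨hcard, hPM, hPB⟩, H, ⟨?_, hJ.anti, ?_, ?_⟩, ?_⟩
    · intro b hb
      exact (hJ.conn b hb).mono Finset.subset_union_left
    · intro b hb e hbe
      refine ⟨(hJ.free b hb e hbe).1, fun he => ?_⟩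
      rcases Finset.mem_union.1 he with he | he
      · exact (hJ.free b hb e hbe).2 he
      · obtain ⟨h1, h2⟩ := hP e he
        have := hJ.anti b hb e.1 (hS h1) hbe
        rw [this]; exact h2
    · rw [Finset.disjoint_union_left]
      exact ⟨hJ.disj, hPB⟩
    · have h1 : ∀ b ∈ S, wt (M ∪ P) b = 8 := by
        intro b hb
        unfold wt
        rw [if_pos]
        rw [Finset.mem_union]
        right
        rw [hPdef, Finset.mem_image]
        exact ⟨b, hb, rfl⟩
      have h2 : ∑ b ∈ S, wt (M ∪ P) b ≤ ∑ b ∈ H, wt (M ∪ P) b :=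
        Finset.sum_le_sum_of_subset hS
      rw [Finset.sum_congr rfl h1, Finset.sum_const, hSc, smul_eq_mul] at h2
      omega

theorem breaker_step {M B Q : Finset Ed} {H : Finset Arm} (hJ : J M B H)
    (hs : 384 ≤ ∑ a ∈ H, wt M a) (hQ : Legal 6 M B Q) :
    ∃ H', J M (B ∪ Q) H' ∧ 336 ≤ ∑ a ∈ H', wt M a := by
  classical
  refine ⟨H.filter (fun a => ∀ e ∈ Q, ¬ child a <:+ child e.1), ⟨?_, ?_, ?_, ?_⟩, ?_⟩
  · intro a ha
    exact hJ.conn a (Finset.mem_filter.1 ha).1
  · exact hJ.anti.subset (Finset.filter_subset _ _)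
  · intro a ha e hae
    rw [Finset.mem_filter] at ha
    refine ⟨?_, (hJ.free a ha.1 e hae).2⟩
    rw [Finset.mem_union, not_or]
    exact ⟨(hJ.free a ha.1 e hae).1, fun he => ha.2 e he hae⟩
  · rw [Finset.disjoint_union_right]
    exact ⟨hJ.disj, hQ.2.1.symm⟩
  · have h1 := Finset.sum_filter_add_sum_filter_not H
      (fun a => ∀ e ∈ Q, ¬ child a <:+ child e.1) (wt M)
    have h2 : ∑ a ∈ H.filter (fun a => ¬ ∀ e ∈ Q, ¬ child a <:+ child e.1), wt M a ≤
        (H.filter (fun a => ¬ ∀ e ∈ Q, ¬ child a <:+ child e.1)).card • 8 :=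
      Finset.sum_le_card_nsmul _ _ _ (fun a _ => wt_le M a)
    have h3 : (H.filter (fun a => ¬ ∀ e ∈ Q, ¬ child a <:+ child e.1)).card ≤ Q.card * 1 := by
      refine le_trans (Finset.card_le_card ?_)
        (Finset.card_biUnion_le_card_mul Q (fun e => H.filter (fun a => child a <:+ child e.1)) 1 ?_)
      · intro a ha
        rw [Finset.mem_filter] at ha
        obtain ⟨ha1, ha2⟩ := ha
        push Not at ha2
        obtain ⟨e, he, hae⟩ := ha2
        rw [Finset.mem_biUnion]
        exact ⟨e, he, Finset.mem_filter.2 ⟨ha1, hae⟩⟩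
      · intro e _
        rw [Finset.card_le_one]
        intro a ha b hb
        rw [Finset.mem_filter] at ha hb
        exact hJ.anti.unique ha.1 hb.1 ha.2 hb.2
    rw [hQ.1] at h3
    rw [smul_eq_mul] at h2
    omega

theorem comp_infinite {M B : Finset Ed} {H : Finset Arm} (hJ : J M B H) {a : Arm} (ha : a ∈ H) :
    ¬ (T.comp B (Sum.inl [])).Finite := by
  have h0 : ∀ n : ℕ, (Sum.inl (List.replicate n 0 ++ child a) : Vx) ∈ T.comp B (Sum.inl []) := by
    intro n
    induction n with
    | zero =>
      exact ((hJ.conn a ha).comp hJ.disj).trans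
        (arm_B a (fun k => (hJ.free a ha (a, k) (List.suffix_refl _)).1))
    | succ n ih =>
      refine ReflTransGen.trans ih (arm_B (List.replicate n 0 ++ child a, 0) (fun k => ?_))
      exact (hJ.free a ha _ (List.IsSuffix.trans (List.suffix_append _ _) (List.suffix_cons _ _))).1
  intro hfin
  refine Set.infinite_of_injective_forall_mem (f := fun n : ℕ =>
    (Sum.inl (List.replicate n 0 ++ child a) : Vx)) ?_ h0 hfin
  intro m n h
  have h := congrArg List.length (Sum.inl_injective h)
  simpa using h

/-- The head start: all links of the eight arms at the root. -/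
def F₀ : Finset Ed := (kids []) ×ˢ (Finset.univ : Finset (Fin 49))

/-- The arms at distance one from the root. -/
def H₀ : Finset Arm := (Finset.univ : Finset (Fin 8 × Fin 8)).image (fun x => ([x.1], x.2))

theorem J_start : J F₀ ∅ H₀ := by
  have hH₀ : ∀ a ∈ H₀, ∃ i, a.1 = [i] := by
    intro a ha
    unfold H₀ at ha
    rw [Finset.mem_image] at ha
    obtain ⟨x, _, rfl⟩ := ha
    exact ⟨x.1, rfl⟩
  refine ⟨?_, ?_, ?_, by simp⟩
  · intro a ha
    obtain ⟨i, hi⟩ := hH₀ a ha
    rw [hi]
    refine arm_M ([], i) (fun k => ?_)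
    unfold F₀
    rw [Finset.mem_product]
    exact ⟨mem_kids.2 rfl, Finset.mem_univ _⟩
  · intro a ha b hb h
    obtain ⟨i, hi⟩ := hH₀ a ha
    obtain ⟨j, hj⟩ := hH₀ b hb
    refine child_inj (h.eq_of_length ?_)
    rw [length_child, length_child, hi, hj]
    rfl
  · intro a ha e hae
    refine ⟨by simp, fun he => ?_⟩
    exfalso
    obtain ⟨i, hi⟩ := hH₀ a ha
    unfold F₀ at he
    rw [Finset.mem_product, mem_kids] at he
    have := hae.length_le
    rw [length_child, length_child, he.1, hi] at this
    simp at this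

theorem H₀_card : H₀.card = 64 := by
  unfold H₀
  rw [Finset.card_image_of_injective]
  · simp
  · rintro ⟨i, j⟩ ⟨i', j'⟩ h
    simpa using h

theorem maker_wins : ¬ BreakerWins T 48 6 (Sum.inl []) F₀ := by
  refine not_wins T 48 6 (Sum.inl []) F₀ (fun M B => ∃ H, J M B H ∧ 336 ≤ ∑ a ∈ H, wt M a)
    ⟨H₀, J_start, ?_⟩ ?_ ?_
  · have h2 : H₀.card • 7 ≤ ∑ b ∈ H₀, wt F₀ b :=
      Finset.card_nsmul_le_sum _ _ _ (fun b _ => wt_ge _ b)
    rw [H₀_card, smul_eq_mul] at h2
    omega
  · rintro M B ⟨H, hJ, hs⟩
    obtain ⟨P, hP, H', hJ', hs'⟩ := maker_step hJ hs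
    refine ⟨P, hP, fun Q hQ => ?_⟩
    exact breaker_step hJ' hs' hQ
  · rintro M B ⟨H, hJ, hs⟩
    have : H.Nonempty := by
      rw [Finset.nonempty_iff_ne_empty]
      rintro rfl
      simp at hs
    obtain ⟨a, ha⟩ := this
    exact comp_infinite hJ ha

/-! ### Breaker wins without a head start -/

theorem averaging {α : Type} [DecidableEq α] (f : α → ℕ) (k : ℕ) :
    ∀ (n : ℕ) (S : Finset α), S.card = n → k ≤ n →
      ∃ T ⊆ S, T.card = k ∧ n * ∑ a ∈ T, f a ≤ k * ∑ a ∈ S, f a := by
  intro n
  induction n with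
  | zero =>
    intro S hS hk
    refine ⟨S, subset_rfl, by omega, by simp⟩
  | succ n ih =>
    intro S hS hk
    rcases Nat.lt_or_ge n k with h | h
    · have : k = n + 1 := by omega
      subst this
      exact ⟨S, subset_rfl, hS, le_rfl⟩
    · have hne : S.Nonempty := by
        rw [← Finset.card_pos]; omega
      obtain ⟨m, hm, hmax⟩ := Finset.exists_max_image S f hne
      obtain ⟨T, hT, hTc, hTs⟩ := ih (S.erase m) (by rw [Finset.card_erase_of_mem hm]; omega) h
      refine ⟨T, hT.trans (Finset.erase_subset _ _), hTc, ?_⟩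
      have h1 : ∑ a ∈ S, f a ≤ (n + 1) * f m := by
        have := Finset.sum_le_card_nsmul S f (f m) hmax
        rwa [hS, smul_eq_mul] at this
      have h2 := Finset.add_sum_erase S f hm
      rcases Nat.eq_zero_or_pos n with hn | hn
      · have hk0 : k = 0 := by omega
        subst hk0
        have : T = ∅ := Finset.card_eq_zero.1 hTc
        rw [this]; simp
      · have h3 : (n + 1) * ∑ a ∈ S.erase m, f a ≤ n * ∑ a ∈ S, f a := by
          nlinarith
        have h4 : n * ((n + 1) * ∑ a ∈ T, f a) ≤ n * (k * ∑ a ∈ S, f a) := by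
          calc n * ((n + 1) * ∑ a ∈ T, f a) = (n + 1) * (n * ∑ a ∈ T, f a) := by ring
            _ ≤ (n + 1) * (k * ∑ a ∈ S.erase m, f a) := Nat.mul_le_mul_left _ hTs
            _ = k * ((n + 1) * ∑ a ∈ S.erase m, f a) := by ring
            _ ≤ k * (n * ∑ a ∈ S, f a) := Nat.mul_le_mul_left _ h3
            _ = n * (k * ∑ a ∈ S, f a) := by ring
        exact Nat.le_of_mul_le_mul_left h4 hn

/-- The links in `M` that lie in the branches of the arms in `H`. -/
def U (M : Finset Ed) (H : Finset Arm) : Finset Ed :=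
  M.filter (fun e => ∃ a ∈ H, child a <:+ child e.1)

theorem mem_U {M : Finset Ed} {H : Finset Arm} {e : Ed} :
    e ∈ U M H ↔ e ∈ M ∧ ∃ a ∈ H, child a <:+ child e.1 := Finset.mem_filter

theorem U_sum (M : Finset Ed) {H : Finset Arm} (hH : Anti H) :
    (U M H).card = ∑ a ∈ H, (U M {a}).card := by
  rw [← Finset.card_biUnion]
  · congr 1
    ext e
    simp only [mem_U, Finset.mem_biUnion, Finset.mem_singleton, exists_eq_left]
    constructor
    · rintro ⟨h, a, ha, h'⟩; exact ⟨a, ha, h, h'⟩
    · rintro ⟨a, ha, h, h'⟩; exact ⟨h, a, ha, h'⟩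
  · intro a ha b hb hab
    show Disjoint (U M {a}) (U M {b})
    rw [Finset.disjoint_left]
    intro e h1 h2
    simp only [mem_U, Finset.mem_singleton, exists_eq_left] at h1 h2
    exact hab (hH.unique ha hb h1.2 h2.2)

/-- Keep `k` of the branches, with few links of Maker in them. -/
theorem keep (M : Finset Ed) {H : Finset Arm} (hH : Anti H) (k : ℕ) (hk : k ≤ H.card) :
    ∃ K ⊆ H, K.card = k ∧ H.card * (U M K).card ≤ k * (U M H).card := by
  obtain ⟨K, hK, hKc, hKs⟩ := averaging (fun a => (U M {a}).card) k H.card H rfl hk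
  refine ⟨K, hK, hKc, ?_⟩
  rw [U_sum M hH, U_sum M (hH.subset hK)]
  exact hKs

theorem arm_card (a : Arm) : ((Finset.univ : Finset (Fin 49)).image (fun j => (a, j))).card = 49 := by
  rw [Finset.card_image_of_injective _ (fun i j h => by simpa using h)]
  simp

/-- If Maker has fewer than 49 links in the branch of `a` then some link of `a` is not
in `M`. -/
theorem exists_free {M : Finset Ed} {H : Finset Arm} {a : Arm} (ha : a ∈ H)
    (h : (U M H).card < 49) : ∃ j : Fin 49, (a, j) ∉ M := by
  by_contra hcon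
  push Not at hcon
  have : ((Finset.univ : Finset (Fin 49)).image (fun j => (a, j))) ⊆ U M H := by
    intro e he
    rw [Finset.mem_image] at he
    obtain ⟨j, _, rfl⟩ := he
    rw [mem_U]
    exact ⟨hcon j, a, ha, List.suffix_refl _⟩
  have := Finset.card_le_card this
  rw [arm_card] at this
  omega

theorem cutting (M B : Finset Ed) (S : Finset Arm) (hS : S.card ≤ 6)
    (h : ∀ a ∈ S, ∃ j : Fin 49, (a, j) ∉ M) :
    ∃ Q, Legal 6 M B Q ∧ ∀ a ∈ S, ∃ j : Fin 49, (a, j) ∈ B ∪ Q := by
  classical
  have h' : ∀ a : Arm, ∃ j : Fin 49, a ∈ S → (a, j) ∉ M := by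
    intro a
    by_cases ha : a ∈ S
    · obtain ⟨j, hj⟩ := h a ha
      exact ⟨j, fun _ => hj⟩
    · exact ⟨0, fun h => absurd h ha⟩
  choose f hf using h'
  set Q₀ : Finset Ed := (S.filter (fun a => ∀ j : Fin 49, (a, j) ∉ B)).image (fun a => (a, f a))
    with hQ₀
  have hcard : Q₀.card ≤ 6 :=
    Finset.card_image_le.trans ((Finset.card_filter_le _ _).trans hS)
  have hdisj : Disjoint Q₀ (M ∪ B) := by
    rw [Finset.disjoint_left]
    intro e he
    rw [hQ₀, Finset.mem_image] at he
    obtain ⟨a, ha, rfl⟩ := he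
    rw [Finset.mem_filter] at ha
    rw [Finset.mem_union, not_or]
    exact ⟨hf a ha.1, ha.2 _⟩
  obtain ⟨Q, h1, h2, h3⟩ := extend (M ∪ B) Q₀ 6 hdisj hcard
  rw [Finset.disjoint_union_right] at h3
  refine ⟨Q, ⟨h2, h3.1, h3.2⟩, ?_⟩
  intro a ha
  by_cases hB : ∀ j : Fin 49, (a, j) ∉ B
  · refine ⟨f a, Finset.mem_union_right _ (h1 ?_)⟩
    rw [hQ₀, Finset.mem_image]
    exact ⟨a, Finset.mem_filter.2 ⟨ha, hB⟩, rfl⟩
  · push Not at hB
    obtain ⟨j, hj⟩ := hB
    exact ⟨j, Finset.mem_union_left _ hj⟩

/-- The situations in which Breaker is winning: `C` is a finite set of hubs, one of them is joined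
to the root `v` by links of Maker, and every arm with exactly one end in `C`, other than the arms
in `H`, contains a link of Breaker. -/
structure St (v : Vx) (M B : Finset Ed) (n θ : ℕ) (C : Finset A) (H : Finset Arm) (h : A) :
    Prop where
  hh : h ∈ C
  conn : MConn M (Sum.inl h) v
  disj : Disjoint M B
  cut : ∀ a : Arm, a ∉ H → (∀ j : Fin 49, (a, j) ∉ B) → (a.1 ∈ C ↔ child a ∈ C)
  up : ∀ a ∈ H, a.1 ∈ C
  anti : Anti H
  card : H.card = n
  pot : (U M H).card ≤ θ

theorem step {v : Vx} {M B P : Finset Ed} {n θ θ' : ℕ} {C : Finset A} {H : Finset Arm} {h : A}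
    (hn : n ≤ 6) (hθ : θ ≤ 18) (hst : St v M B n θ C H h) (hP : Legal 48 M B P)
    (harith : ∀ t s, t + 1 ≤ θ → (n + 7) * s ≤ (n + 1) * t → s ≤ θ') :
    (∃ Q, Legal 6 (M ∪ P) B Q ∧ (T.comp (B ∪ Q) v).Finite) ∨
    (1 ≤ θ ∧ ∃ Q, Legal 6 (M ∪ P) B Q ∧
      ∃ C' H', St v (M ∪ P) (B ∪ Q) (n + 1) θ' C' H' h) := by
  by_cases hall : ∀ a ∈ H, ∃ j : Fin 49, (a, j) ∉ M ∪ P
  · left
    obtain ⟨Q, hQ, hcut⟩ := cutting (M ∪ P) B H (by rw [hst.card]; exact hn) hall
    refine ⟨Q, hQ, ?_⟩
    have hdisj : Disjoint (M ∪ P) (B ∪ Q) := by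
      rw [Finset.disjoint_union_right, Finset.disjoint_union_left]
      exact ⟨⟨hst.disj, hP.2.2⟩, hQ.2.1.symm⟩
    refine isolate (C := C) ?_ hst.hh ((hst.conn.mono Finset.subset_union_left).comp hdisj)
    intro a ha
    refine hst.cut a ?_ ?_
    · intro haH
      obtain ⟨j, hj⟩ := hcut a haH
      exact ha j hj
    · intro j hj
      exact ha j (Finset.mem_union_left _ hj)
  · right
    push Not at hall
    obtain ⟨a, ha, hall⟩ := hall
    have hU : (U (M ∪ P) H).card ≤ θ + 48 := by
      have h1 : U (M ∪ P) H ⊆ U M H ∪ P := by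
        intro e he
        rw [mem_U, Finset.mem_union] at he
        rw [Finset.mem_union, mem_U]
        rcases he with ⟨he | he, h'⟩
        · exact Or.inl ⟨he, h'⟩
        · exact Or.inr he
      have h2 := (Finset.card_le_card h1).trans (Finset.card_union_le _ _)
      have h3 := hst.pot
      rw [hP.1] at h2
      omega
    have hU' : (U (M ∪ P) (repl H a)).card + 49 ≤ (U (M ∪ P) H).card := by
      have hdis : Disjoint (U (M ∪ P) (repl H a))
          ((Finset.univ : Finset (Fin 49)).image (fun j => (a, j))) := by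
        rw [Finset.disjoint_left]
        intro e he he'
        rw [mem_U] at he
        obtain ⟨_, b, hb, hbe⟩ := he
        rw [Finset.mem_image] at he'
        obtain ⟨j, _, rfl⟩ := he'
        unfold repl at hb
        rw [Finset.mem_union, mem_kids, Finset.mem_erase] at hb
        rcases hb with ⟨hb1, hb⟩ | hb
        · exact hb1 (hst.anti b hb a ha hbe)
        · exact not_kid_suffix hb hbe
      have hcu := Finset.card_union_of_disjoint hdis
      rw [arm_card a] at hcu
      rw [← hcu]
      · refine Finset.card_le_card ?_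
        intro e he
        rw [Finset.mem_union, mem_U, Finset.mem_image] at he
        rw [mem_U]
        rcases he with ⟨he, b, hb, hbe⟩ | ⟨j, _, rfl⟩
        · refine ⟨he, ?_⟩
          unfold repl at hb
          rw [Finset.mem_union, mem_kids, Finset.mem_erase] at hb
          rcases hb with ⟨_, hb⟩ | hb
          · exact ⟨b, hb, hbe⟩
          · exact ⟨a, ha, (kid_suffix hb).trans hbe⟩
        · exact ⟨hall j, a, ha, List.suffix_refl _⟩
    have hθ1 : 1 ≤ θ := by omega
    refine ⟨hθ1, ?_⟩
    have hanti := repl_anti hst.anti ha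
    have hcard : (repl H a).card = n + 7 := by rw [repl_card hst.anti ha, hst.card]
    obtain ⟨K, hK, hKc, hKU⟩ := keep (M ∪ P) hanti (n + 1) (by rw [hcard]; omega)
    rw [hcard] at hKU
    have hKθ := harith _ _ (by omega) hKU
    have hrest : (repl H a \ K).card = 6 := by
      rw [Finset.card_sdiff_of_subset hK, hcard, hKc]
      omega
    obtain ⟨Q, hQ, hcut⟩ := cutting (M ∪ P) B (repl H a \ K) (by omega) (fun b hb =>
      exists_free (Finset.mem_sdiff.1 hb).1 (by omega))
    have hdisj : Disjoint (M ∪ P) (B ∪ Q) := by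
      rw [Finset.disjoint_union_right, Finset.disjoint_union_left]
      exact ⟨⟨hst.disj, hP.2.2⟩, hQ.2.1.symm⟩
    refine ⟨Q, hQ, insert (child a) C, K, Finset.mem_insert_of_mem hst.hh,
      hst.conn.mono Finset.subset_union_left, hdisj, ?_, ?_, hanti.subset hK, hKc, hKθ⟩
    · intro b hb hbB
      have hbr : b ∉ repl H a := by
        intro hbr
        obtain ⟨j, hj⟩ := hcut b (Finset.mem_sdiff.2 ⟨hbr, hb⟩)
        exact hbB j hj
      unfold repl at hbr
      rw [Finset.mem_union, mem_kids, Finset.mem_erase, not_or, not_and_or, not_not] at hbr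
      obtain ⟨hbr1, hbr2⟩ := hbr
      rw [Finset.mem_insert, Finset.mem_insert]
      rcases hbr1 with hba | hbH
      · rw [hba]
        exact ⟨fun _ => Or.inl rfl, fun _ => Or.inr (hst.up a ha)⟩
      · have hca : child b ≠ child a := by
          intro h
          rw [child_inj h] at hbH
          exact hbH ha
        have := hst.cut b hbH (fun j hj => hbB j (Finset.mem_union_left _ hj))
        constructor
        · rintro (h | h)
          · exact absurd h hbr2
          · exact Or.inr (this.1 h)
        · rintro (h | h)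
          · exact absurd h hca
          · exact Or.inr (this.2 h)
    · intro b hb
      have hb := hK hb
      unfold repl at hb
      rw [Finset.mem_union, mem_kids, Finset.mem_erase] at hb
      rw [Finset.mem_insert]
      rcases hb with ⟨_, hb⟩ | hb
      · exact Or.inr (hst.up b hb)
      · exact Or.inl hb

theorem W6 {v : Vx} {M B : Finset Ed} {C : Finset A} {H : Finset Arm} {h : A}
    (hst : St v M B 6 0 C H h) : W T 48 6 v 1 M B := by
  intro P hP
  rcases step (θ' := 0) le_rfl (by omega) hst hP (fun t s h _ => by omega) with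
    ⟨Q, hQ, hfin⟩ | ⟨h1, _⟩
  · exact ⟨Q, hQ, hfin⟩
  · omega

theorem W5 {v : Vx} {M B : Finset Ed} {C : Finset A} {H : Finset Arm} {h : A}
    (hst : St v M B 5 2 C H h) : W T 48 6 v 2 M B := by
  intro P hP
  rcases step (θ' := 0) (by omega) (by omega) hst hP (fun t s h h' => by omega) with
    ⟨Q, hQ, hfin⟩ | ⟨_, Q, hQ, C', H', hst'⟩
  · exact ⟨Q, hQ, W_fin _ _ _ _ _ _ _ hfin⟩
  · exact ⟨Q, hQ, W6 hst'⟩

theorem W4 {v : Vx} {M B : Finset Ed} {C : Finset A} {H : Finset Arm} {h : A}
    (hst : St v M B 4 6 C H h) : W T 48 6 v 3 M B := by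
  intro P hP
  rcases step (θ' := 2) (by omega) (by omega) hst hP (fun t s h h' => by omega) with
    ⟨Q, hQ, hfin⟩ | ⟨_, Q, hQ, C', H', hst'⟩
  · exact ⟨Q, hQ, W_fin _ _ _ _ _ _ _ hfin⟩
  · exact ⟨Q, hQ, W5 hst'⟩

theorem W3 {v : Vx} {M B : Finset Ed} {C : Finset A} {H : Finset Arm} {h : A}
    (hst : St v M B 3 18 C H h) : W T 48 6 v 4 M B := by
  intro P hP
  rcases step (θ' := 6) (by omega) (by omega) hst hP (fun t s h h' => by omega) with
    ⟨Q, hQ, hfin⟩ | ⟨_, Q, hQ, C', H', hst'⟩
  · exact ⟨Q, hQ, W_fin _ _ _ _ _ _ _ hfin⟩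
  · exact ⟨Q, hQ, W4 hst'⟩

/-- The arm above the hub `w`, if there is one. -/
def ups : A → Finset Arm
  | [] => ∅
  | i :: w => {(w, i)}

theorem mem_ups {w : A} {b : Arm} : b ∈ ups w ↔ child b = w := by
  cases w with
  | nil => simp [ups, child]
  | cons i w =>
    show b ∈ ({(w, i)} : Finset Arm) ↔ _
    rw [Finset.mem_singleton]
    constructor
    · rintro rfl; rfl
    · intro h; exact child_inj h

theorem card_ups (w : A) : (ups w).card ≤ 1 := by
  cases w with
  | nil => simp [ups]
  | cons i w => simp [ups]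

theorem first {v : Vx} {M : Finset Ed} {h : A} (hM : M.card = 48)
    (hconn : MConn M (Sum.inl h) v) :
    ∃ Q, Legal 6 M ∅ Q ∧ ∃ C H, St v M (∅ ∪ Q) 3 18 C H h := by
  obtain ⟨K, hK, hKc, hKU⟩ := keep M (anti_kids h) 3 (by rw [card_kids]; omega)
  have hUle : ∀ H, (U M H).card ≤ 48 := fun H => by
    rw [← hM]; exact Finset.card_le_card (Finset.filter_subset _ _)
  have h48 := hUle (kids h)
  rw [card_kids] at hKU
  have hrest : (kids h \ K).card = 5 := by
    rw [Finset.card_sdiff_of_subset hK, card_kids, hKc]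
  have hS : ((kids h \ K) ∪ ups h).card ≤ 6 := by
    have := Finset.card_union_le (kids h \ K) (ups h)
    have := card_ups h
    omega
  obtain ⟨Q, hQ, hcut⟩ := cutting M ∅ _ hS (fun b hb =>
    exists_free (H := {b}) (Finset.mem_singleton_self b) (by have := hUle {b}; omega))
  refine ⟨Q, hQ, {h}, K, Finset.mem_singleton_self h, hconn, ?_, ?_, ?_,
    (anti_kids h).subset hK, hKc, by omega⟩
  · rw [Finset.empty_union]
    exact hQ.2.1.symm
  · intro b hb hbB
    rw [Finset.mem_singleton, Finset.mem_singleton]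
    constructor
    · intro hb1
      exfalso
      obtain ⟨j, hj⟩ := hcut b (Finset.mem_union_left _
        (Finset.mem_sdiff.2 ⟨mem_kids.2 hb1, hb⟩))
      exact hbB j hj
    · intro hb1
      exfalso
      obtain ⟨j, hj⟩ := hcut b (Finset.mem_union_right _ (mem_ups.2 hb1))
      exact hbB j hj
  · intro b hb
    rw [Finset.mem_singleton]
    exact mem_kids.1 (hK hb)

theorem breaker_wins (v : Vx) : BreakerWins T 48 6 v ∅ := by
  refine wins_of_W T 48 6 v 5 ∅ ?_
  intro P hP
  rw [Finset.empty_union]
  have hcase : ∀ h : A, MConn P (Sum.inl h) v →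
      ∃ Q, Legal 6 P ∅ Q ∧ W T 48 6 v 4 P (∅ ∪ Q) := by
    intro h hconn
    obtain ⟨Q, hQ, C, H, hst⟩ := first hP.1 hconn
    exact ⟨Q, hQ, W3 hst⟩
  rcases v with h | ⟨a, m⟩
  · exact hcase h ReflTransGen.refl
  · have hm := m.2
    by_cases h1 : ∀ k : Fin 49, k.1 ≤ m.1 → (a, k) ∈ P
    · refine hcase a.1 ?_
      rw [← node_zero, ← node_inner]
      exact path_M a 0 (m.1 + 1) (by omega) (by omega) (fun k _ h => h1 k (by omega))
    · by_cases h2 : ∀ k : Fin 49, m.1 < k.1 → (a, k) ∈ P
      · refine hcase (child a) ?_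
        rw [← node_last, ← node_inner]
        exact (path_M a (m.1 + 1) 49 (by omega) le_rfl (fun k h _ => h2 k (by omega))).symm
      · push Not at h1 h2
        obtain ⟨i, hi, hiP⟩ := h1
        obtain ⟨j, hj, hjP⟩ := h2
        obtain ⟨Q, hQ1, hQ2, hQ3⟩ := extend P ({(a, i), (a, j)} : Finset Ed) 6
          (by
            rw [Finset.disjoint_left]
            intro e he
            rw [Finset.mem_insert, Finset.mem_singleton] at he
            rcases he with rfl | rfl
            · exact hiP
            · exact hjP)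
          (Finset.card_le_two.trans (by omega))
        refine ⟨Q, ⟨hQ2, hQ3, by simp⟩, W_fin _ _ _ _ _ _ _ ?_⟩
        rw [Finset.empty_union]
        exact isolate_inner a m i j hi hj (hQ1 (by simp)) (hQ1 (by simp))

theorem node_inner_eq {a b : Arm} {k n : ℕ} (h0 : k ≠ 0) (hk : k < 49) (hn : n ≤ 49)
    (h : node a k = node b n) : a = b ∧ k = n := by
  rw [node_inner' a k h0 hk] at h
  rcases Nat.eq_zero_or_pos n with h' | h'
  · subst h'
    rw [node_zero] at h
    exact absurd h (by simp)
  · rcases Nat.lt_or_ge n 49 with h'' | h''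
    · rw [node_inner' b n (by omega) h''] at h
      simp only [Sum.inr.injEq, Prod.mk.injEq, Fin.mk.injEq] at h
      exact ⟨h.1, by omega⟩
    · have : n = 49 := by omega
      subst this
      rw [node_last] at h
      exact absurd h (by simp)

/-- `T` has no parallel edges. -/
theorem T_simple : Function.Injective T.ends := by
  rintro ⟨a, j⟩ ⟨b, k⟩ h
  have h : s(node a j.1, node a (j.1 + 1)) = s(node b k.1, node b (k.1 + 1)) := h
  have hj := j.2
  have hk := k.2
  rw [Sym2.eq_iff] at h
  rcases h with ⟨h1, h2⟩ | ⟨h1, h2⟩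
  · rcases Nat.eq_zero_or_pos j.1 with h0 | h0
    · obtain ⟨h3, h4⟩ := node_inner_eq (by omega) (by omega) (by omega) h2
      rw [Prod.mk.injEq, Fin.ext_iff]
      exact ⟨h3, by omega⟩
    · obtain ⟨h3, h4⟩ := node_inner_eq (by omega) (by omega) (by omega) h1
      rw [Prod.mk.injEq, Fin.ext_iff]
      exact ⟨h3, by omega⟩
  · exfalso
    rcases Nat.eq_zero_or_pos j.1 with h0 | h0
    · obtain ⟨h3, h4⟩ := node_inner_eq (by omega) (by omega) (by omega) h2
      obtain ⟨h5, h6⟩ := node_inner_eq (by omega) (by omega) (by omega) h1.symm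
      omega
    · obtain ⟨h3, h4⟩ := node_inner_eq (by omega) (by omega) (by omega) h1
      rcases Nat.eq_zero_or_pos k.1 with h5 | h5
      · obtain ⟨h6, h7⟩ := node_inner_eq (by omega) (by omega) (by omega) h2
        omega
      · obtain ⟨h6, h7⟩ := node_inner_eq (by omega) (by omega) (by omega) h2.symm
        omega

/-- `T` is locally finite. -/
theorem T_locally_finite (v : Vx) : {e | v ∈ T.ends e}.Finite := by
  have key : ∃ S : Finset Arm, ∀ (a : Arm) (n : ℕ), n ≤ 49 → v = node a n → a ∈ S := by
    rcases v with w | ⟨b, m⟩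
    · refine ⟨kids w ∪ ups w, fun a n hn h => ?_⟩
      rw [Finset.mem_union, mem_kids, mem_ups]
      rcases Nat.eq_zero_or_pos n with h' | h'
      · subst h'
        rw [node_zero] at h
        exact Or.inl (Sum.inl_injective h).symm
      · rcases Nat.lt_or_ge n 49 with h'' | h''
        · rw [node_inner' a n (by omega) h''] at h
          exact absurd h (by simp)
        · have : n = 49 := by omega
          subst this
          rw [node_last] at h
          exact Or.inr (Sum.inl_injective h).symm
    · refine ⟨{b}, fun a n hn h => ?_⟩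
      have hm := m.2
      rw [← node_inner] at h
      rw [Finset.mem_singleton]
      exact (node_inner_eq (by omega) (by omega) hn h).1.symm
  obtain ⟨S, hS⟩ := key
  refine ((S ×ˢ (Finset.univ : Finset (Fin 49))).finite_toSet).subset ?_
  rintro ⟨a, j⟩ h
  have h : v ∈ s(node a j.1, node a (j.1 + 1)) := h
  have hj := j.2
  rw [Finset.mem_coe, Finset.mem_product]
  rw [Sym2.mem_iff] at h
  refine ⟨?_, Finset.mem_univ _⟩
  rcases h with h | h
  · exact hS a _ (by omega) h
  · exact hS a _ (by omega) h

/-- The zero-one law for Maker-Breaker percolation games fails: there are an infinite connected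
graph (locally finite and without parallel edges) and integers `p, q ≥ 1`, namely
`(p, q) = (48, 6)`, such that Breaker wins the `(p, q)`-percolation game from every root, but for
some root and some finite head start of Maker Breaker has no winning strategy. -/
theorem result : ∃ (V E : Type) (_ : DecidableEq E) (G : MGraph V E),
    Infinite V ∧ G.Connected ∧ Function.Injective G.ends ∧ (∀ v : V, {e | v ∈ G.ends e}.Finite) ∧
      (∀ v : V, BreakerWins G 48 6 v ∅) ∧
      ∃ (v₀ : V) (F : Finset E), ¬ BreakerWins G 48 6 v₀ F :=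
  ⟨Vx, Ed, inferInstance, T, inferInstance, T_connected, T_simple, T_locally_finite, breaker_wins,
    Sum.inl [], F₀, maker_wins⟩

end Pool.Agent.Results.MP_aefbf4_co.NoZeroOneLaw
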